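import Pool.Agent.H37.CTP.Stmts
import Pool.Agent.H62.CTO.PFN

/-!
Board ctp, row RFN: the exact value of `N` for `SL_n(q) / C`, `q` even.
-/

set_option autoImplicit false

namespace Pool.CND

theorem rfn_thm (h57 : S_R57) (hA : S_ALL) (hL : S_NLB) (hN : S_NQD) (hU : S_UB4) : S_RFN := by
  intro k F _ _ _ f q n hk hf hq hF hn C _ hC
  have hp : Nat.Prime 2 := Nat.prime_two
  have hfin : Finite F :=
    Nat.finite_of_card_ne_zero (by rw [hF, hq]; exact pow_ne_zero _ hp.ne_zero)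
  have hch : CharP F 2 := pfn_charF 2 F f q hp hf hq hF
  obtain ⟨hAl⟩ := pfn_alg 2 k F hp hk hch hfin
  have hq2 : 2 ≤ q := by
    rw [hq]
    calc 2 = 2 ^ 1 := (pow_one 2).symm
      _ ≤ 2 ^ f := Nat.pow_le_pow_right (by norm_num) hf
  have hCp : ¬ 2 ∣ Nat.card C := fun h =>
    pfn_center 2 n F hp (h.trans (Subgroup.card_dvd_of_le hC))
  have a1 := hL 2 k F f q n hp hk hf hq hF hn
  have a2 : 2 ^ (f * (n - 2) - 1) ∣ NG k (Matrix.SpecialLinearGroup (Fin n) F) := by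
    obtain ⟨s, rfl⟩ : ∃ s, n = s + 3 := ⟨n - 3, by omega⟩
    rw [show s + 3 - 2 = s + 1 by omega]
    have hfs : 1 ≤ f * (s + 1) := Nat.mul_pos (by omega) (by omega)
    have hQe : q ^ (s + 1) = 2 ^ (f * (s + 1)) := by rw [hq, ← pow_mul]
    by_cases h4 : 4 ≤ q ^ (s + 1)
    · have hc := h57 k F f q s hk hf hq hF h4
      obtain ⟨z, hz⟩ := hA 2 k _ _ hp hk hc
      have hQ : (4 : ℚ) ≤ (q : ℚ) ^ (s + 1) := by exact_mod_cast h4
      have hne : (q : ℚ) ^ (s + 1) * ((q : ℚ) ^ (s + 1) - 1) ≠ 0 := by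
        refine mul_ne_zero (by linarith) (by linarith)
      rw [← mul_div_assoc, div_eq_iff hne] at hz
      have hz' : (NG k (Matrix.SpecialLinearGroup (Fin (s + 3)) F) : ℤ) *
          ((q : ℤ) ^ (s + 1) * nu2 q s + 2) = z * ((q : ℤ) ^ (s + 1) * ((q : ℤ) ^ (s + 1) - 1)) := by
        exact_mod_cast hz
      have hd : ((q ^ (s + 1) : ℕ) : ℤ) ∣
          ((2 * NG k (Matrix.SpecialLinearGroup (Fin (s + 3)) F) : ℕ) : ℤ) := by
        refine ⟨z * ((q : ℤ) ^ (s + 1) - 1) -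
          NG k (Matrix.SpecialLinearGroup (Fin (s + 3)) F) * nu2 q s, ?_⟩
        push_cast
        linear_combination hz'
      have hd' : q ^ (s + 1) ∣ 2 * NG k (Matrix.SpecialLinearGroup (Fin (s + 3)) F) := by
        exact_mod_cast hd
      rw [hQe, show f * (s + 1) = (f * (s + 1) - 1) + 1 by omega, pow_succ, mul_comm] at hd'
      exact Nat.dvd_of_mul_dvd_mul_left (by norm_num) hd'
    · have h5 : f * (s + 1) < 2 := by
        by_contra h6
        push Not at h6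
        apply h4
        rw [hQe]
        calc 4 = 2 ^ 2 := by norm_num
          _ ≤ 2 ^ (f * (s + 1)) := Nat.pow_le_pow_right (by norm_num) h6
      rw [show f * (s + 1) - 1 = 0 by omega, pow_zero]
      exact one_dvd _
  have hcop : Nat.Coprime 2 ((Finset.Icc 1 (n - 1)).lcm (fun m => q ^ m - 1)) :=
    Nat.Coprime.coprime_dvd_left (by rw [hq]; exact dvd_pow_self 2 (by omega)) (pfn_coprime q n hq2)
  have a3 : 2 ^ (f * (n - 2) - 1) * (Finset.Icc 1 (n - 1)).lcm (fun m => q ^ m - 1) ∣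
      NG k (Matrix.SpecialLinearGroup (Fin n) F) :=
    Nat.Coprime.mul_dvd_of_dvd_of_dvd (Nat.Coprime.pow_left _ hcop) a2 a1
  have a4 := hN 2 k (Matrix.SpecialLinearGroup (Fin n) F) C hp hk hCp
  have a5 := (hU f q n k F (Matrix.SpecialLinearGroup (Fin n) F) C
    Matrix.SpecialLinearGroup.toGL hf hq hF hn
    Matrix.SpecialLinearGroup.toGL_injective hC hCp).2
  exact Nat.dvd_antisymm a5 (a3.trans a4)

end Pool.CND
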